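import Mathlib

set_option autoImplicit false

/-!
# Quasi-identities of groups and independent sets of quasi-identities
-/

namespace Pool.Agent.H27.QB

universe u

/-- A group is torsion-free if `g ^ n = 1` with `n ≥ 1` implies `g = 1`. -/
def TorsionFree (G : Type u) [Group G] : Prop :=
  ∀ (g : G) (n : ℕ), 1 ≤ n → g ^ n = 1 → g = 1

/-- A group is right-orderable if it carries a total order with `x ≤ y → x * z ≤ y * z`. -/
def RightOrderable (G : Type u) [Group G] : Prop :=
  ∃ o : LinearOrder G, ∀ x y z : G, o.le x y → o.le (x * z) (y * z)

/-- A group is locally indicable if every non-trivial finitely generated subgroup has a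
homomorphism onto the infinite cyclic group. -/
def LocallyIndicable (G : Type u) [Group G] : Prop :=
  ∀ H : Subgroup G, H.FG → H ≠ ⊥ → ∃ f : H →* Multiplicative ℤ, Function.Surjective f

/-- A quasi-identity in the language of groups: finitely many premises `w = 1` and one conclusion
`c = 1`, where the `w` and `c` are group words in the variables `0, …, vars - 1`. -/
structure QuasiIdentity where
  /-- the number of variables -/
  vars : ℕ
  /-- the premises -/
  premises : List (FreeGroup (Fin vars))
  /-- the conclusion -/
  conclusion : FreeGroup (Fin vars)

/-- A quasi-identity holds in `G` if every assignment of elements of `G` to the variables which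
satisfies all premises satisfies the conclusion. -/
def QuasiIdentity.HoldsIn (σ : QuasiIdentity) (G : Type u) [Group G] : Prop :=
  ∀ v : Fin σ.vars → G, (∀ w ∈ σ.premises, FreeGroup.lift v w = 1) →
    FreeGroup.lift v σ.conclusion = 1

/-- The set `S` of quasi-identities defines the class `K` in the class of torsion-free groups: a
torsion-free group belongs to `K` exactly when it satisfies every member of `S`. -/
def DefinesAmongTorsionFree (S : Set QuasiIdentity) (K : (G : Type u) → [Group G] → Prop) : Prop :=
  ∀ (G : Type u) [Group G], TorsionFree G → (K G ↔ ∀ σ ∈ S, σ.HoldsIn G)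

/-- The set `S` of quasi-identities is independent in the class of torsion-free groups: for every
member `σ` there is a torsion-free group in which all other members hold and `σ` fails. -/
def IndependentAmongTorsionFree (S : Set QuasiIdentity) : Prop :=
  ∀ σ ∈ S, ∃ (G : Type u) (_ : Group G), TorsionFree G ∧
    (∀ τ ∈ S, τ ≠ σ → τ.HoldsIn G) ∧ ¬ σ.HoldsIn G

end Pool.Agent.H27.QB
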