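import Pool.Agent.H27.QB.Univ
import Pool.Agent.H27.Ind.Final

set_option autoImplicit false

/-!
# The independent bases in all universes
-/

namespace Pool.Agent.H27.QB

universe u

/-- change of the structure -/
def conv (σ : Pool.Agent.H83.Ord.QuasiIdentity) : QuasiIdentity :=
  ⟨σ.vars, σ.premises, σ.conclusion⟩

lemma conv_injective : Function.Injective conv := by
  rintro ⟨a, b, c⟩ ⟨a', b', c'⟩ h
  simp only [conv, QuasiIdentity.mk.injEq] at h
  obtain ⟨rfl, h1, h2⟩ := h
  rw [eq_of_heq h1, eq_of_heq h2]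

lemma conv_holdsIn (σ : Pool.Agent.H83.Ord.QuasiIdentity) (G : Type) [Group G] :
    (conv σ).HoldsIn G ↔ σ.HoldsIn G := Iff.rfl

lemma torsionFree_iff (G : Type) [Group G] :
    TorsionFree G ↔ Pool.Agent.H83.Ord.TorsionFree G := Iff.rfl

theorem exists_basis (K : (G : Type u) → [Group G] → Prop)
    (K₀ : Pool.Agent.H83.Ord.GroupClass)
    (hloc : ∀ (G : Type u) [Group G], K G ↔ ∀ (m : ℕ) (v : Fin m → G), K₀ (Mdl v))
    (h : ∃ S : Set Pool.Agent.H83.Ord.QuasiIdentity,
      Pool.Agent.H83.Ord.Defines S K₀ (fun G _ => Pool.Agent.H83.Ord.TorsionFree G) ∧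
      Pool.Agent.H83.Ord.IndependentIn S (fun G _ => Pool.Agent.H83.Ord.TorsionFree G)) :
    ∃ S : Set QuasiIdentity, DefinesAmongTorsionFree.{u} S K ∧
      IndependentAmongTorsionFree.{u} S := by
  obtain ⟨S, hdef, hind⟩ := h
  refine ⟨conv '' S, ?_, ?_⟩
  · intro G _ hG
    rw [hloc]
    have h1 : ∀ (m : ℕ) (v : Fin m → G), K₀ (Mdl v) ↔ ∀ σ ∈ S, σ.HoldsIn (Mdl v) := fun m v =>
      hdef (Mdl v) (TorsionFree.of_injective (emb v) (emb_injective v) hG)
    constructor
    · rintro h2 _ ⟨σ, hσ, rfl⟩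
      rw [holdsIn_iff]
      intro m v
      exact (h1 m v).1 (h2 m v) σ hσ
    · intro h2 m v
      rw [h1]
      intro σ hσ
      exact (holdsIn_iff (conv σ) G).1 (h2 _ ⟨σ, hσ, rfl⟩) m v
  · rintro _ ⟨σ, hσ, rfl⟩
    have h1 := hind σ hσ
    simp only [not_forall] at h1
    obtain ⟨G, hG, htf, hall, hfail⟩ := h1
    refine ⟨ULift.{u} G, inferInstance, ?_, ?_, ?_⟩
    · exact TorsionFree.of_injective (MulEquiv.ulift : ULift.{u} G ≃* G).toMonoidHom
        (MulEquiv.ulift : ULift.{u} G ≃* G).injective htf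
    · rintro _ ⟨τ, hτ, rfl⟩ hne
      have h2 : (conv τ).HoldsIn G := hall τ ⟨hτ, fun h3 => hne (by rw [h3])⟩
      exact holdsIn_of_injective (conv τ) (MulEquiv.ulift : ULift.{u} G ≃* G).toMonoidHom
        (MulEquiv.ulift : ULift.{u} G ≃* G).injective h2
    · intro h2
      apply hfail
      exact holdsIn_of_injective (conv σ) (MulEquiv.ulift : ULift.{u} G ≃* G).symm.toMonoidHom
        (MulEquiv.ulift : ULift.{u} G ≃* G).symm.injective h2

theorem rightOrderable_basis : ∃ S : Set QuasiIdentity,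
    DefinesAmongTorsionFree.{u} S (fun G _ => RightOrderable G) ∧
      IndependentAmongTorsionFree.{u} S :=
  exists_basis _ _ (fun G _ => rightOrderable_iff G) Ind.rightOrderable_basis

theorem locallyIndicable_basis : ∃ S : Set QuasiIdentity,
    DefinesAmongTorsionFree.{u} S (fun G _ => LocallyIndicable G) ∧
      IndependentAmongTorsionFree.{u} S :=
  exists_basis _ _ (fun G _ => locallyIndicable_iff G) Ind.locallyIndicable_basis

end Pool.Agent.H27.QB
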