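import Pool.Agent.H27.QB.Defs
import Pool.Agent.H27.Ind.RO1

set_option autoImplicit false

/-!
# Passing between universes
-/

namespace Pool.Agent.H27.QB

open Pool.Agent.H27.Ord

universe u v

/-- The group generated by a tuple, presented by its relations. -/
abbrev Mdl {G : Type u} [Group G] {m : ℕ} (v : Fin m → G) : Type :=
  FreeGroup (Fin m) ⧸ (FreeGroup.lift v).ker

/-- the embedding -/
def emb {G : Type u} [Group G] {m : ℕ} (v : Fin m → G) : Mdl v →* G :=
  QuotientGroup.kerLift (FreeGroup.lift v)

lemma emb_injective {G : Type u} [Group G] {m : ℕ} (v : Fin m → G) :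
    Function.Injective (emb v) := QuotientGroup.kerLift_injective _

lemma emb_mk {G : Type u} [Group G] {m : ℕ} (v : Fin m → G) (w : FreeGroup (Fin m)) :
    emb v (w : Mdl v) = FreeGroup.lift v w := rfl

lemma emb_range {G : Type u} [Group G] {m : ℕ} (v : Fin m → G) :
    (emb v).range = Subgroup.closure (Set.range v) := by
  rw [← FreeGroup.range_lift_eq_closure]
  ext x
  constructor
  · rintro ⟨y, rfl⟩
    obtain ⟨w, rfl⟩ := QuotientGroup.mk'_surjective _ y
    exact ⟨w, rfl⟩
  · rintro ⟨w, rfl⟩
    exact ⟨(w : Mdl v), rfl⟩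

/-- Quasi-identities pass to groups embedding. -/
lemma holdsIn_of_injective (σ : QuasiIdentity) {G : Type u} {H : Type v} [Group G] [Group H]
    (f : H →* G) (hf : Function.Injective f) (h : σ.HoldsIn G) : σ.HoldsIn H := by
  intro v hv
  have hlift : ∀ w, FreeGroup.lift (fun j => f (v j)) w = f (FreeGroup.lift v w) := by
    intro w
    have : FreeGroup.lift (fun j => f (v j)) = f.comp (FreeGroup.lift v) := by
      apply FreeGroup.ext_hom
      intro j
      simp
    rw [this]; rfl
  apply hf
  rw [map_one, ← hlift]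
  apply h
  intro u hu
  rw [hlift, hv u hu, map_one]

lemma holdsIn_iff (σ : QuasiIdentity) (G : Type u) [Group G] :
    σ.HoldsIn G ↔ ∀ (m : ℕ) (v : Fin m → G), σ.HoldsIn (Mdl v) := by
  constructor
  · intro h m v
    exact holdsIn_of_injective σ (emb v) (emb_injective v) h
  · intro h v hv
    have h1 : ∀ w, FreeGroup.lift (fun j => ((FreeGroup.of j : FreeGroup (Fin σ.vars)) : Mdl v)) w =
        (w : Mdl v) := by
      intro w
      have : FreeGroup.lift (fun j => ((FreeGroup.of j : FreeGroup (Fin σ.vars)) : Mdl v)) =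
          QuotientGroup.mk' (FreeGroup.lift v).ker := by
        apply FreeGroup.ext_hom
        intro j
        simp
      rw [this]; rfl
    have h2 := h σ.vars v (fun j => ((FreeGroup.of j : FreeGroup (Fin σ.vars)) : Mdl v)) (by
      intro w hw
      rw [h1, QuotientGroup.eq_one_iff]
      exact hv w hw)
    rw [h1, QuotientGroup.eq_one_iff] at h2
    exact h2

lemma TorsionFree.of_injective {G : Type u} {H : Type v} [Group G] [Group H]
    (f : H →* G) (hf : Function.Injective f) (h : TorsionFree G) : TorsionFree H := by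
  intro g n hn hg
  apply hf
  rw [map_one]
  apply h _ n hn
  rw [← map_pow, hg, map_one]

lemma RightOrderable.of_injective {G : Type u} {H : Type v} [Group G] [Group H]
    (f : H →* G) (hf : Function.Injective f) (h : RightOrderable G) : RightOrderable H := by
  obtain ⟨o, ho⟩ := h
  refine ⟨LinearOrder.lift' f hf, fun x y z hxy => ?_⟩
  have h1 : f x ≤ f y := hxy
  show f (x * z) ≤ f (y * z)
  rw [map_mul, map_mul]
  exact ho _ _ _ h1

lemma rightOrderable_of_cone {G : Type u} [Group G] (P : Set G) (hP : IsCone P) :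
    RightOrderable G := by
  classical
  refine ⟨{ le := fun x y => x = y ∨ y * x⁻¹ ∈ P
            le_refl := fun x => Or.inl rfl
            le_trans := ?_
            le_antisymm := ?_
            le_total := ?_
            toDecidableLE := fun _ _ => Classical.propDecidable _ }, ?_⟩
  · rintro x y z (rfl | hxy) (rfl | hyz)
    · exact Or.inl rfl
    · exact Or.inr hyz
    · exact Or.inr hxy
    · right
      have h1 := hP.mul _ hyz _ hxy
      have h2 : z * y⁻¹ * (y * x⁻¹) = z * x⁻¹ := by group
      rwa [h2] at h1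
  · rintro x y (rfl | hxy) (h | hyx)
    · rfl
    · rfl
    · exact h.symm
    · exfalso
      have h1 := hP.mul _ hyx _ hxy
      have h2 : x * y⁻¹ * (y * x⁻¹) = 1 := by group
      rw [h2] at h1
      exact hP.one h1
  · intro x y
    by_cases hxy : x = y
    · exact Or.inl (Or.inl hxy)
    · have h1 : y * x⁻¹ ≠ 1 := by
        intro h
        apply hxy
        have h2 : y = x := by
          calc y = y * x⁻¹ * x := by group
            _ = x := by rw [h, one_mul]
        exact h2.symm
      rcases hP.tot _ h1 with h | h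
      · exact Or.inl (Or.inr h)
      · right; right
        have h2 : (y * x⁻¹)⁻¹ = x * y⁻¹ := by group
        rwa [h2] at h
  · intro x y z hxy
    show x * z = y * z ∨ y * z * (x * z)⁻¹ ∈ P
    have hxy' : x = y ∨ y * x⁻¹ ∈ P := hxy
    rcases hxy' with h | h
    · exact Or.inl (by rw [h])
    · right
      have h2 : y * z * (x * z)⁻¹ = y * x⁻¹ := by group
      rwa [h2]

/-- right-orderability is a local property -/
lemma rightOrderable_iff (G : Type u) [Group G] :
    RightOrderable G ↔ ∀ (m : ℕ) (v : Fin m → G), RightOrderable (Mdl v) := by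
  constructor
  · intro h m v
    exact RightOrderable.of_injective (emb v) (emb_injective v) h
  intro h
  have h1 : ∀ (m : ℕ) (v : Fin m → G), ∃ P : Set (Mdl v), IsCone P := fun m v =>
    (Ind.rightOrderable_iff_cone (Mdl v)).1 (h m v)
  choose P hP using h1
  let e : (E : Finset G) → Fin E.card → G := fun E i => (E.equivFin.symm i : G)
  let C : Finset G → Set G := fun E => (emb (e E)) '' (P E.card (e E))
  let U : Ultrafilter (Finset G) := Ultrafilter.of Filter.atTop
  have hU : (U : Filter (Finset G)) ≤ Filter.atTop := Ultrafilter.of_le _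
  have hmem : ∀ a : G, ∀ᶠ E in (U : Filter (Finset G)), a ∈ (emb (e E)).range := by
    intro a
    apply hU
    filter_upwards [Filter.eventually_ge_atTop ({a} : Finset G)] with E hE
    rw [emb_range]
    apply Subgroup.subset_closure
    have ha : a ∈ E := hE (Finset.mem_singleton_self a)
    exact ⟨E.equivFin ⟨a, ha⟩, by simp [e]⟩
  apply rightOrderable_of_cone {x | ∀ᶠ E in (U : Filter (Finset G)), x ∈ C E}
  refine ⟨?_, ?_, ?_⟩
  · intro a ha b hb
    have ha' : ∀ᶠ E in (U : Filter (Finset G)), a ∈ C E := ha
    have hb' : ∀ᶠ E in (U : Filter (Finset G)), b ∈ C E := hb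
    show ∀ᶠ E in (U : Filter (Finset G)), a * b ∈ C E
    filter_upwards [ha', hb'] with E h1 h2
    obtain ⟨x, hx, rfl⟩ := h1
    obtain ⟨y, hy, rfl⟩ := h2
    exact ⟨x * y, (hP _ _).mul _ hx _ hy, map_mul _ _ _⟩
  · intro h1
    have h2 : ∀ᶠ E in (U : Filter (Finset G)), (1 : G) ∈ C E := h1
    obtain ⟨E, x, hx, h4⟩ := h2.exists
    have h5 : x = 1 := emb_injective (e E) (by rw [h4, map_one])
    rw [h5] at hx
    exact (hP _ _).one hx
  · intro a ha
    have h2 : ∀ᶠ E in (U : Filter (Finset G)), a ∈ C E ∨ a⁻¹ ∈ C E := by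
      filter_upwards [hmem a] with E hE
      obtain ⟨x, hx⟩ := hE
      have hx1 : x ≠ 1 := fun h => ha (by rw [← hx, h, map_one])
      rcases (hP _ _).tot _ hx1 with h | h
      · exact Or.inl ⟨x, h, hx⟩
      · exact Or.inr ⟨x⁻¹, h, by rw [map_inv, hx]⟩
    exact Ultrafilter.eventually_or.1 h2

/-- local indicability is a local property -/
lemma locallyIndicable_iff (G : Type u) [Group G] :
    LocallyIndicable G ↔ ∀ (m : ℕ) (v : Fin m → G), LocallyIndicable (Mdl v) := by
  constructor
  · intro h m v H hH hne
    have h1 : (H.map (emb v)).FG := by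
      obtain ⟨E, hE⟩ := hH
      classical
      refine ⟨E.image (emb v), ?_⟩
      rw [← hE, MonoidHom.map_closure, Finset.coe_image]
    have h2 : H.map (emb v) ≠ ⊥ := by
      intro h2
      apply hne
      rw [Subgroup.map_eq_bot_iff_of_injective _ (emb_injective v)] at h2
      exact h2
    obtain ⟨f, hf⟩ := h _ h1 h2
    let e := H.equivMapOfInjective (emb v) (emb_injective v)
    exact ⟨f.comp e.toMonoidHom, hf.comp e.surjective⟩
  · intro h H hH hne
    obtain ⟨E, hE⟩ := hH
    let v : Fin E.card → G := fun i => (E.equivFin.symm i : G)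
    have hv : Subgroup.closure (Set.range v) = H := by
      rw [← hE]
      congr 1
      ext x
      constructor
      · rintro ⟨i, rfl⟩
        exact (E.equivFin.symm i).2
      · intro hx
        exact ⟨E.equivFin ⟨x, hx⟩, by simp [v]⟩
    have hr : (emb v).range = H := (emb_range v).trans hv
    have h1 : (⊤ : Subgroup (Mdl v)).FG := by
      have : Group.FG (Mdl v) := inferInstance
      exact this.out
    have h2 : (⊤ : Subgroup (Mdl v)) ≠ ⊥ := by
      intro h2
      apply hne
      rw [← hr, MonoidHom.range_eq_map, h2, Subgroup.map_bot]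
    obtain ⟨f, hf⟩ := h _ v ⊤ h1 h2
    let e : Mdl v ≃* H := (MonoidHom.ofInjective (emb_injective v)).trans
      (MulEquiv.subgroupCongr hr)
    exact ⟨f.comp ((Subgroup.topEquiv.symm).toMonoidHom.comp e.symm.toMonoidHom),
      hf.comp (Subgroup.topEquiv.symm.surjective.comp e.symm.surjective)⟩

end Pool.Agent.H27.QB
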